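import Pool.Agent.V11209.ER.Res

/-!
# Automatic predictions of the residues of the number of ordered representations
-/

set_option autoImplicit false

open Finset Filter

namespace Pool.Agent.V11209.ER

open Pool.Agent.V11226.ET (msets Recognised thin_power recognised_of_fintype msets_finite
  pow_le_multichoose)

section mult
variable {Q : Type*} (b h : ℕ) (δ : Q → ℕ → Q)

theorem carry_lt (hb : 2 ≤ b) (_hh : 1 ≤ h) (d c : ℕ) (hc : c < h) :
    (h * (d % b) + c) / b < h := by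
  have hd : d % b < b := Nat.mod_lt _ (by omega)
  rw [Nat.div_lt_iff_lt_mul (by omega)]
  have h1 : h * (d % b) + h ≤ h * b := by
    have : h * (d % b + 1) ≤ h * b := Nat.mul_le_mul_left _ (by omega)
    rw [Nat.mul_add, Nat.mul_one] at this
    exact this
  omega

/-- reading the digits of `m`, simulating the automaton on the digits of `h m + c` -/
def mstep (hb : 2 ≤ b) (hh : 1 ≤ h) (s : Q × Fin h) (d : ℕ) : Q × Fin h :=
  (δ s.1 ((h * (d % b) + s.2) % b), ⟨(h * (d % b) + s.2) / b, carry_lt b h hb hh d s.2 s.2.2⟩)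

def mfin (s : Q × Fin h) : Q := (Nat.digits b (s.2 : ℕ)).foldl δ s.1

theorem mult_fold (hb : 2 ≤ b) (hh : 1 ≤ h) (m : ℕ) (q : Q) (c : Fin h) :
    (Nat.digits b (h * m + c)).foldl δ q =
      mfin b h δ ((Nat.digits b m).foldl (mstep b h δ hb hh) (q, c)) := by
  induction m using Nat.strong_induction_on generalizing q c with
  | _ m ih =>
    rcases Nat.eq_zero_or_pos m with h0 | h0
    · subst h0
      simp [mfin]
    · have h1 := Nat.div_add_mod m b
      have hd : m % b < b := Nat.mod_lt _ (by omega)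
      have hpos : 0 < h * m + c := by
        have : 0 < h * m := Nat.mul_pos (by omega) h0
        omega
      rw [Nat.digits_def' (by omega) hpos, List.foldl_cons,
        Nat.digits_def' (by omega) h0, List.foldl_cons]
      set d := m % b with hdd
      set m' := m / b with hm'
      have hm'lt : m' < m := Nat.div_lt_self h0 (by omega)
      have e0 : h * m + c = b * (h * m') + (h * d + c) := by
        rw [← h1]; ring
      have e1 : (h * m + c) % b = (h * d + c) % b := by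
        rw [e0, Nat.mul_add_mod]
      have e2 : (h * m + c) / b = h * m' + (h * d + c) / b := by
        rw [e0, Nat.mul_add_div (by omega)]
      have hdb : d % b = d := Nat.mod_eq_of_lt hd
      have e3 : mstep b h δ hb hh (q, c) d = (δ q ((h * d + c) % b),
          ⟨(h * d + c) / b, by
            have := carry_lt b h hb hh d c c.2
            rwa [hdb] at this⟩) := by
        unfold mstep
        simp only [hdb]
      rw [e1, e2, e3, ← ih m' hm'lt]

end mult

/-- the set of the `m` with `h m ∈ P` is automatic if `P` is -/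
theorem recognised_mult {b w : ℕ} (hb : 2 ≤ b) (h : ℕ) (hh : 1 ≤ h) {P : Set ℕ}
    (hP : Recognised b w P) : Recognised b (w * h) {m | h * m ∈ P} := by
  obtain ⟨δ, q₀, F, hF⟩ := hP
  have h0 := recognised_of_fintype (Q := Fin w × Fin h) b (mstep b h δ hb hh) (q₀, ⟨0, hh⟩)
    {s | mfin b h δ s ∈ F} {m | h * m ∈ P} (fun m => by
      show h * m ∈ P ↔ _
      rw [hF]
      have h1 := mult_fold b h δ hb hh m q₀ ⟨0, hh⟩
      simp only [Nat.add_zero] at h1
      rw [h1]
      exact Iff.rfl)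
  simpa using h0

/-- counting multisets -/
theorem pow_count_le (A : Set ℕ) (h N : ℕ) :
    ({x | x ∈ A ∧ x ≤ N} : Set ℕ).ncard ^ h ≤
      h.factorial * ∑ n ∈ range (h * N + 1), (msets A h n).ncard := by
  classical
  have hfin : ({x | x ∈ A ∧ x ≤ N} : Set ℕ).Finite := (Set.finite_Iic N).subset fun x hx => hx.2
  set X := hfin.toFinset with hX
  rw [Set.ncard_eq_toFinset_card _ hfin, ← hX]
  have hmem : ∀ x, x ∈ X ↔ x ∈ A ∧ x ≤ N := by
    intro x
    rw [hX, Set.Finite.mem_toFinset]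
    exact Iff.rfl
  refine (pow_le_multichoose _ _).trans (Nat.mul_le_mul_left _ ?_)
  have hX0 : X.card.multichoose h = (univ : Finset (Sym X h)).card := by
    rw [card_univ, Sym.card_sym_eq_multichoose, Fintype.card_coe]
  have hmap : Function.Injective (fun s : Sym X h => (s : Multiset X).map Subtype.val) :=
    fun s t hst => Subtype.ext (Multiset.map_injective Subtype.val_injective hst)
  have hprop : ∀ s : Sym X h, ∀ a ∈ (s : Multiset X).map Subtype.val, a ∈ A ∧ a ≤ N := by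
    intro s a ha
    rw [Multiset.mem_map] at ha
    obtain ⟨x, -, rfl⟩ := ha
    exact (hmem _).1 x.2
  rw [hX0, card_eq_sum_card_fiberwise
    (f := fun s : Sym X h => ((s : Multiset X).map Subtype.val).sum) (t := range (h * N + 1))]
  · refine sum_le_sum fun n _ => ?_
    rw [← card_image_of_injective _ hmap, ← Set.ncard_coe_finset]
    refine Set.ncard_le_ncard ?_ (msets_finite A h n)
    intro s hs
    rw [Finset.mem_coe, mem_image] at hs
    obtain ⟨t, ht, rfl⟩ := hs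
    rw [mem_filter] at ht
    refine ⟨?_, fun a ha => (hprop t a ha).1, ht.2⟩
    rw [Multiset.card_map]
    exact t.2
  · intro s _
    rw [Finset.mem_coe, mem_range]
    have h1 : ((s : Multiset X).map Subtype.val).sum ≤
        Multiset.card ((s : Multiset X).map Subtype.val) • N :=
      Multiset.sum_le_card_nsmul _ _ fun a ha => (hprop s a ha).2
    have h2 : Multiset.card (s : Multiset X) = h := s.2
    rw [Multiset.card_map, h2, smul_eq_mul] at h1
    show ((s : Multiset X).map Subtype.val).sum < h * N + 1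
    omega

/-- the number of the `m ≤ N` for which `P` predicts wrongly whether `p` divides the number of ordered
representations of `h m` -/
noncomputable def errors (A P : Set ℕ) (p h N : ℕ) : ℕ :=
  {m : ℕ | m ≤ N ∧ ¬ (¬ p ∣ (tup A h (h * m)).ncard ↔ h * m ∈ P)}.ncard

theorem power (b w p k : ℕ) (hb : 2 ≤ b) (hp : p.Prime) (hk : 1 ≤ k) :
    ∃ δ : ℝ, 0 < δ ∧ ∀ (A P : Set ℕ) (κ c : ℝ), Recognised b w P → 0 < κ → 0 < c →
      (∀ᶠ N : ℕ in atTop,
        c * (N : ℝ) ^ (1 / (p ^ k : ℕ) : ℝ) ≤ ({x | x ∈ A ∧ x ≤ N} : Set ℕ).ncard) →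
      (∀ M : ℕ, ∃ N ≥ M,
        (errors A P p (p ^ k) N : ℝ) ≤ (1 - κ) * ({x | x ∈ A ∧ x ≤ N} : Set ℕ).ncard) →
      ∀ M : ℕ, ∃ n ≥ M, (n : ℝ) ^ δ ≤ (msets A (p ^ k) n).ncard := by
  set h := p ^ k with hh
  have hh1 : 1 ≤ h := Nat.one_le_pow _ _ hp.pos
  have hh2 : 2 ≤ h := by
    calc 2 ≤ p := hp.two_le
      _ = p ^ 1 := (pow_one p).symm
      _ ≤ p ^ k := Nat.pow_le_pow_right hp.pos hk
  have hh0 : (0 : ℝ) < h := by exact_mod_cast (show 0 < h by omega)
  obtain ⟨δ₀, hδ₀, H⟩ := thin_power b (w * h) h hb hh2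
  set δ := δ₀ / 2 with hδ
  have hδ0 : 0 < δ := by positivity
  refine ⟨δ, hδ0, ?_⟩
  intro A P κ c hP hκ hc hcnt hinf
  by_contra hcon
  push Not at hcon
  obtain ⟨M₀, hM₀⟩ := hcon
  set R : ℝ := ((∑ n ∈ range M₀, (msets A h n).ncard : ℕ) : ℝ) with hR
  have hR0 : 0 ≤ R := Nat.cast_nonneg _
  set f : ℝ := (h.factorial : ℝ) with hf
  have hf0 : 0 < f := by
    rw [hf]
    exact_mod_cast h.factorial_pos
  -- the number of elements of `A`
  have hcount : ∀ N : ℕ, 1 ≤ N → ((({x | x ∈ A ∧ x ≤ N} : Set ℕ).ncard : ℝ)) ^ h ≤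
      (f * (2 * h) * (R + (h : ℝ) ^ δ)) * (N : ℝ) ^ (1 + δ) := by
    intro N hN
    have hNr : (1 : ℝ) ≤ N := by exact_mod_cast hN
    have hN0 : (0 : ℝ) < N := by linarith
    have h1 : ((({x | x ∈ A ∧ x ≤ N} : Set ℕ).ncard : ℝ)) ^ h ≤
        f * ∑ n ∈ range (h * N + 1), ((msets A h n).ncard : ℝ) := by
      rw [hf]
      exact_mod_cast pow_count_le A h N
    have h2 : ∀ n ∈ range (h * N + 1), ((msets A h n).ncard : ℝ) ≤
        R + (h : ℝ) ^ δ * (N : ℝ) ^ δ := by
      intro n hn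
      rw [mem_range] at hn
      have h3 : (0 : ℝ) ≤ (h : ℝ) ^ δ * (N : ℝ) ^ δ := by positivity
      rcases lt_or_ge n M₀ with h4 | h4
      · have h5 : (msets A h n).ncard ≤ ∑ n ∈ range M₀, (msets A h n).ncard :=
          single_le_sum (f := fun n => (msets A h n).ncard) (fun _ _ => Nat.zero_le _)
            (mem_range.2 h4)
        have h6 : ((msets A h n).ncard : ℝ) ≤ R := by rw [hR]; exact_mod_cast h5
        linarith
      · have h5 := (hM₀ n h4).le
        have h6 : (n : ℝ) ^ δ ≤ ((h : ℝ) * (N : ℝ)) ^ δ :=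
          Real.rpow_le_rpow (Nat.cast_nonneg _) (by exact_mod_cast (show n ≤ h * N by omega))
            hδ0.le
        rw [Real.mul_rpow hh0.le hN0.le] at h6
        linarith
    have h3 := sum_le_card_nsmul _ _ _ h2
    rw [card_range, nsmul_eq_mul] at h3
    push_cast at h3
    have h4 : 1 ≤ (N : ℝ) ^ δ := Real.one_le_rpow hNr hδ0.le
    have h5 : (N : ℝ) ^ (1 + δ) = N * (N : ℝ) ^ δ := by
      rw [Real.rpow_add hN0, Real.rpow_one]
    rw [h5]
    have hhδ : 0 < (h : ℝ) ^ δ := Real.rpow_pos_of_pos hh0 _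
    have h6 : R + (h : ℝ) ^ δ * (N : ℝ) ^ δ ≤ (R + (h : ℝ) ^ δ) * (N : ℝ) ^ δ := by nlinarith
    have h8 : (1 : ℝ) ≤ h := by exact_mod_cast hh1
    have h9 : (h : ℝ) * N + 1 ≤ 2 * h * N := by nlinarith
    calc _ ≤ f * (((h : ℝ) * (N : ℝ) + 1) * (R + (h : ℝ) ^ δ * (N : ℝ) ^ δ)) :=
          h1.trans (mul_le_mul_of_nonneg_left h3 hf0.le)
      _ ≤ f * ((2 * h * (N : ℝ)) * ((R + (h : ℝ) ^ δ) * (N : ℝ) ^ δ)) := by
          refine mul_le_mul_of_nonneg_left ?_ hf0.le
          refine mul_le_mul h9 h6 (by positivity) (by positivity)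
      _ = _ := by ring
  set D : ℝ := f * (2 * h) * (R + (h : ℝ) ^ δ) with hD
  have hD0 : 0 < D := by positivity
  have hlarge : ∀ᶠ N : ℕ in atTop, 2 ^ h * D ≤ (N : ℝ) ^ δ :=
    ((tendsto_rpow_atTop hδ0).comp tendsto_natCast_atTop_atTop).eventually_ge_atTop _
  obtain ⟨M₁, hM₁⟩ := eventually_atTop.1 hlarge
  obtain ⟨M₂, hM₂⟩ := eventually_atTop.1 hcnt
  obtain ⟨n, hn, hn2⟩ := H A {m | h * m ∈ P} (κ * c) (recognised_mult hb h hh1 hP) (by positivity) (by
    intro M
    obtain ⟨N, hN, herr⟩ := hinf (max (max M 1) (max M₁ M₂))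
    have hN1 : 1 ≤ N := le_trans (le_trans (le_max_right _ _) (le_max_left _ _)) hN
    have hNM₁ : M₁ ≤ N := le_trans (le_trans (le_max_left _ _) (le_max_right _ _)) hN
    have hNM₂ : M₂ ≤ N := le_trans (le_trans (le_max_right _ _) (le_max_right _ _)) hN
    have hNr : (1 : ℝ) ≤ N := by exact_mod_cast hN1
    have hN0 : (0 : ℝ) < N := by linarith
    have hfinE : ({m : ℕ | m ≤ N ∧ ¬ (¬ p ∣ (tup A h (h * m)).ncard ↔ h * m ∈ P)} :
        Set ℕ).Finite := (Set.finite_Iic N).subset fun x hx => hx.1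
    have hfinA : ({x | x ∈ A ∧ x ≤ N} : Set ℕ).Finite := (Set.finite_Iic N).subset fun x hx => hx.2
    refine ⟨N, le_trans (le_trans (le_max_left _ _) (le_max_left _ _)) hN, ?_, ?_⟩
    · have hfinS : ({x | x ∈ A ∧ x ∈ ({m | h * m ∈ P} : Set ℕ) ∧ x ≤ N} : Set ℕ).Finite :=
        (Set.finite_Iic N).subset fun x hx => hx.2.2
      have h1 : ({x | x ∈ A ∧ x ≤ N} : Set ℕ).ncard ≤
          ({x | x ∈ A ∧ x ∈ ({m | h * m ∈ P} : Set ℕ) ∧ x ≤ N} : Set ℕ).ncard +
            errors A P p h N := by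
        refine (Set.ncard_le_ncard ?_ (hfinS.union hfinE)).trans (Set.ncard_union_le _ _)
        rintro x ⟨hx1, hx2⟩
        by_cases hxP : h * x ∈ P
        · exact Or.inl ⟨hx1, hxP, hx2⟩
        · refine Or.inr ⟨hx2, ?_⟩
          rw [hh, dvd_iff A p k x hp]
          intro h3
          exact hxP (h3.1 hx1)
      have h2 : ((({x | x ∈ A ∧ x ≤ N} : Set ℕ).ncard : ℝ)) ≤
          ({x | x ∈ A ∧ x ∈ ({m | h * m ∈ P} : Set ℕ) ∧ x ≤ N} : Set ℕ).ncard +
            errors A P p h N := by exact_mod_cast h1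
      have h3 := hM₂ N hNM₂
      have h4 := mul_le_mul_of_nonneg_left h3 hκ.le
      calc κ * c * (N : ℝ) ^ (1 / (h : ℕ) : ℝ) = κ * (c * (N : ℝ) ^ (1 / (h : ℕ) : ℝ)) := by ring
        _ ≤ κ * ({x | x ∈ A ∧ x ≤ N} : Set ℕ).ncard := h4
        _ ≤ _ := by linarith
    · have h1 : ({x | x ∈ ({m | h * m ∈ P} : Set ℕ) ∧ x ≤ N} : Set ℕ).ncard ≤
          ({x | x ∈ A ∧ x ≤ N} : Set ℕ).ncard + errors A P p h N := by
        refine (Set.ncard_le_ncard ?_ (hfinA.union hfinE)).trans (Set.ncard_union_le _ _)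
        rintro x ⟨hx1, hx2⟩
        by_cases hxA : x ∈ A
        · exact Or.inl ⟨hxA, hx2⟩
        · refine Or.inr ⟨hx2, ?_⟩
          rw [hh, dvd_iff A p k x hp]
          intro h3
          exact hxA (h3.2 hx1)
      have h2 : (({x | x ∈ ({m | h * m ∈ P} : Set ℕ) ∧ x ≤ N} : Set ℕ).ncard : ℝ) ≤
          2 * ({x | x ∈ A ∧ x ≤ N} : Set ℕ).ncard := by
        have h3 : (({x | x ∈ ({m | h * m ∈ P} : Set ℕ) ∧ x ≤ N} : Set ℕ).ncard : ℝ) ≤
            ({x | x ∈ A ∧ x ≤ N} : Set ℕ).ncard + errors A P p h N := by exact_mod_cast h1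
        have h4 : (0 : ℝ) ≤ ({x | x ∈ A ∧ x ≤ N} : Set ℕ).ncard := Nat.cast_nonneg _
        nlinarith
      refine h2.trans ?_
      have h5 : (2 * (({x | x ∈ A ∧ x ≤ N} : Set ℕ).ncard : ℝ)) ^ h ≤
          ((N : ℝ) ^ (1 / h + δ₀ : ℝ)) ^ h := by
        have h6 : (N : ℝ) ^ δ * (N : ℝ) ^ (1 + δ) ≤ ((N : ℝ) ^ (1 / h + δ₀ : ℝ)) ^ h := by
          rw [← Real.rpow_natCast, ← Real.rpow_mul hN0.le, ← Real.rpow_add hN0]
          refine Real.rpow_le_rpow_of_exponent_le hNr ?_
          have h7 : (1 / (h : ℝ) + δ₀) * h = 1 + δ₀ * h := by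
            field_simp
          rw [h7]
          have h8 : (1 : ℝ) ≤ h := by exact_mod_cast hh1
          rw [hδ]
          nlinarith
        refine le_trans ?_ h6
        rw [mul_pow]
        have h7 := hcount N hN1
        have h8 := hM₁ N hNM₁
        have h9 : (0 : ℝ) ≤ (N : ℝ) ^ (1 + δ) := by positivity
        calc (2 : ℝ) ^ h * (({x | x ∈ A ∧ x ≤ N} : Set ℕ).ncard : ℝ) ^ h
            ≤ 2 ^ h * (D * (N : ℝ) ^ (1 + δ)) := mul_le_mul_of_nonneg_left h7 (by positivity)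
          _ = (2 ^ h * D) * (N : ℝ) ^ (1 + δ) := by ring
          _ ≤ _ := mul_le_mul_of_nonneg_right h8 h9
      exact le_of_pow_le_pow_left₀ (by omega) (by positivity) h5) (max M₀ 1)
  have hn1 : (1 : ℝ) ≤ n := by exact_mod_cast le_trans (le_max_right _ _) hn
  have h1 := hM₀ n (le_trans (le_max_left _ _) hn)
  have h2 : (n : ℝ) ^ δ ≤ (n : ℝ) ^ δ₀ :=
    Real.rpow_le_rpow_of_exponent_le hn1 (by rw [hδ]; linarith)
  linarith

end Pool.Agent.V11209.ER
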