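import Pool.Agent.V11226.ET.Parity

/-!
# Residues of the number of ordered representations

Let `h = p ^ k` be a prime power. The number of `h`-tuples of elements of `A` with sum `n` is
congruent modulo `p` to one if `h ∣ n` and `n / h ∈ A`, and to zero otherwise.
-/

set_option autoImplicit false

open Finset Filter
open scoped Classical

namespace Pool.Agent.V11209.ER

/-- the ordered representations of `n` as a sum of `h` elements of `A` -/
def tup (A : Set ℕ) (h n : ℕ) : Set (Fin h → ℕ) := {f | (∀ i, f i ∈ A) ∧ ∑ i, f i = n}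

theorem tup_finite (A : Set ℕ) (h n : ℕ) : (tup A h n).Finite := by
  classical
  refine (Fintype.piFinset fun _ : Fin h => range (n + 1)).finite_toSet.subset ?_
  rintro f ⟨-, hf⟩
  rw [Finset.mem_coe, Fintype.mem_piFinset]
  intro i
  rw [mem_range]
  have := single_le_sum (f := f) (fun _ _ => Nat.zero_le _) (mem_univ i)
  omega

section action

variable (A : Set ℕ) (h n : ℕ) [NeZero h]

/-- the same, indexed by the residues modulo `h` -/
def Tup : Type := {f : ZMod h → ℕ // (∀ i, f i ∈ A) ∧ ∑ i, f i = n}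

variable {A h n}

instance : MulAction (Multiplicative (ZMod h)) (Tup A h n) where
  smul g f := ⟨fun i => f.1 (i + g.toAdd), fun i => f.2.1 _,
    (Equiv.sum_comp (Equiv.addRight g.toAdd) f.1).trans f.2.2⟩
  one_smul f := by
    apply Subtype.ext
    funext i
    show f.1 (i + 0) = f.1 i
    rw [add_zero]
  mul_smul g g' f := by
    apply Subtype.ext
    funext i
    show f.1 (i + (g.toAdd + g'.toAdd)) = f.1 (i + g.toAdd + g'.toAdd)
    rw [add_assoc]

theorem smul_val (g : Multiplicative (ZMod h)) (f : Tup A h n) (i : ZMod h) :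
    (g • f).1 i = f.1 (i + g.toAdd) := rfl

instance : Finite (Tup A h n) := by
  classical
  have h1 : ({f : ZMod h → ℕ | (∀ i, f i ∈ A) ∧ ∑ i, f i = n} : Set (ZMod h → ℕ)).Finite := by
    refine (Fintype.piFinset fun _ : ZMod h => range (n + 1)).finite_toSet.subset ?_
    rintro f ⟨-, hf⟩
    rw [Finset.mem_coe, Fintype.mem_piFinset]
    intro i
    rw [mem_range]
    have := single_le_sum (f := f) (fun _ _ => Nat.zero_le _) (mem_univ i)
    omega
  exact h1.to_subtype

theorem card_tup : Nat.card (Tup A h n) = (tup A h n).ncard := by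
  let e : Fin h ≃ ZMod h := Fintype.equivOfCardEq (by rw [Fintype.card_fin, ZMod.card])
  rw [← Nat.card_coe_set_eq]
  refine Nat.card_congr
    { toFun := fun f => ⟨fun i => f.1 (e i), fun i => f.2.1 _,
        (Equiv.sum_comp e f.1).trans f.2.2⟩
      invFun := fun f => ⟨fun i => f.1 (e.symm i), fun i => f.2.1 _,
        (Equiv.sum_comp e.symm f.1).trans f.2.2⟩
      left_inv := ?_
      right_inv := ?_ }
  · intro f
    apply Subtype.ext
    funext i
    show f.1 (e (e.symm i)) = f.1 i
    rw [Equiv.apply_symm_apply]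
  · intro f
    apply Subtype.ext
    funext i
    show f.1 (e.symm (e i)) = f.1 i
    rw [Equiv.symm_apply_apply]

theorem fixed_const (f : Tup A h n)
    (hf : f ∈ MulAction.fixedPoints (Multiplicative (ZMod h)) (Tup A h n)) (i : ZMod h) :
    f.1 i = f.1 0 := by
  have h1 := hf (Multiplicative.ofAdd i)
  have h2 := congrArg (fun x : Tup A h n => x.1 0) h1
  have h3 : f.1 (0 + i) = f.1 0 := h2
  rwa [zero_add] at h3

theorem card_fixed : Nat.card (MulAction.fixedPoints (Multiplicative (ZMod h)) (Tup A h n)) =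
    if h ∣ n ∧ n / h ∈ A then 1 else 0 := by
  have hh : 0 < h := Nat.pos_of_ne_zero (NeZero.ne h)
  have hsum : ∀ f : Tup A h n,
      f ∈ MulAction.fixedPoints (Multiplicative (ZMod h)) (Tup A h n) → h * f.1 0 = n := by
    intro f hf
    have h1 := f.2.2
    rw [Finset.sum_congr rfl (fun i _ => fixed_const f hf i)] at h1
    rw [sum_const, card_univ, ZMod.card, smul_eq_mul] at h1
    exact h1
  split_ifs with hn
  · obtain ⟨⟨m, rfl⟩, hm⟩ := hn
    rw [Nat.mul_div_cancel_left _ hh] at hm
    rw [Nat.card_eq_one_iff_unique]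
    refine ⟨⟨?_⟩, ?_⟩
    · rintro ⟨f, hf⟩ ⟨g, hg⟩
      apply Subtype.ext
      apply Subtype.ext
      funext i
      rw [fixed_const f hf i, fixed_const g hg i]
      have h1 := hsum f hf
      have h2 := hsum g hg
      exact Nat.eq_of_mul_eq_mul_left hh (h1.trans h2.symm)
    · refine ⟨⟨⟨fun _ => m, fun _ => hm, by simp [ZMod.card]⟩, ?_⟩⟩
      intro g
      apply Subtype.ext
      funext i
      rfl
  · rw [Nat.card_eq_zero]
    left
    refine ⟨?_⟩
    rintro ⟨f, hf⟩
    apply hn
    have h1 := hsum f hf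
    refine ⟨⟨f.1 0, h1.symm⟩, ?_⟩
    rw [← h1, Nat.mul_div_cancel_left _ hh]
    exact f.2.1 0

end action

/-- the number of ordered representations modulo `p`, if the order is a power of `p` -/
theorem ncard_mod (A : Set ℕ) (p k n : ℕ) (hp : p.Prime) :
    (tup A (p ^ k) n).ncard ≡ (if p ^ k ∣ n ∧ n / p ^ k ∈ A then 1 else 0) [MOD p] := by
  haveI : Fact p.Prime := ⟨hp⟩
  haveI : NeZero (p ^ k) := ⟨pow_ne_zero _ hp.ne_zero⟩
  have hG : IsPGroup p (Multiplicative (ZMod (p ^ k))) := by
    refine IsPGroup.of_card (n := k) ?_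
    rw [Nat.card_eq_fintype_card, Fintype.card_multiplicative, ZMod.card]
  have h1 := hG.card_modEq_card_fixedPoints (Tup A (p ^ k) n)
  rw [card_tup, card_fixed] at h1
  exact h1

theorem dvd_iff (A : Set ℕ) (p k m : ℕ) (hp : p.Prime) :
    ¬ p ∣ (tup A (p ^ k) (p ^ k * m)).ncard ↔ m ∈ A := by
  have h0 : 0 < p ^ k := pow_pos hp.pos _
  have h1 := ncard_mod A p k (p ^ k * m) hp
  rw [Nat.mul_div_cancel_left _ h0] at h1
  by_cases hm : m ∈ A
  · rw [if_pos ⟨Dvd.intro _ rfl, hm⟩] at h1
    refine ⟨fun _ => hm, fun _ h2 => ?_⟩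
    have h3 := (Nat.modEq_zero_iff_dvd.2 h2).symm.trans h1
    have h4 : (0 : ℕ) % p = 1 % p := h3
    rw [Nat.zero_mod, Nat.mod_eq_of_lt hp.one_lt] at h4
    omega
  · rw [if_neg (fun h => hm h.2)] at h1
    exact ⟨fun h2 => absurd (Nat.modEq_zero_iff_dvd.1 h1) h2, fun h2 => absurd h2 hm⟩

end Pool.Agent.V11209.ER
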